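import Mathlib
import Pool.Agent.Work.MP_5f857a_co.M.Merge

set_option autoImplicit false

namespace Pool.Agent.Work.MP_5f857a_co.Retired.CrossPolytopeMinor

section

variable {E : Type*} [AddCommGroup E] [Module ℝ E]

/-- the points of `V` on any supporting hyperplane `f x = c` of `conv V` are affinely independent -/
def HasSimplexFaces (V : Finset E) : Prop :=
  ∀ (f : E →ₗ[ℝ] ℝ) (c : ℝ), (∀ x ∈ V, f x ≤ c) → (∃ x ∈ V, f x < c) →
    AffineIndependent ℝ (fun x : {x : E // x ∈ V ∧ f x = c} => (x : E))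

/-- `V` is the vertex set of a centrally symmetric simplicial polytope `P = conv V` of full dimension:
`V = -V`, every point of `V` is a vertex of `P`, `V` spans the whole space affinely, and every proper face
is a simplex. -/
def IsCSSimplicial (V : Finset E) : Prop :=
  (∀ v ∈ V, -v ∈ V) ∧ (∀ v ∈ V, v ∉ convexHull ℝ ((V : Set E) \ {v})) ∧
    affineSpan ℝ (V : Set E) = ⊤ ∧ HasSimplexFaces V

/-- `u` and `v` span an edge (or are a vertex, if `u = v`) of `conv V`: some supporting hyperplane meets `V`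
exactly in `u` and `v`. -/
def IsEdge (V : Finset E) (u v : E) : Prop :=
  u ∈ V ∧ v ∈ V ∧ ∃ (f : E →ₗ[ℝ] ℝ) (c : ℝ),
    (∀ x ∈ V, f x ≤ c) ∧ ∀ x ∈ V, (f x = c ↔ (x = u ∨ x = v))

/-- the graph of the polytope `conv V` -/
def polytopeGraph (V : Finset E) : SimpleGraph E := SimpleGraph.fromRel (fun u v => IsEdge V u v)

end

/-- `S` is a nonempty set of points of `V`, any two of them joined by a walk of `G` inside `S`. -/
def IsConnectedIn {α : Type*} (G : SimpleGraph α) (V : Finset α) (S : Set α) : Prop :=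
  S.Nonempty ∧ S ⊆ V ∧ ∀ x ∈ S, ∀ y ∈ S, ∃ p : G.Walk x y, ∀ z ∈ p.support, z ∈ S

/-- The sets `B i` show that `H` is a minor of `G` (a graph with vertices in `V`): they are nonempty,
connected and pairwise disjoint, and `G` has an edge between `B i` and `B j` if `i`, `j` are adjacent in `H`. -/
def IsMinorModel {α ι : Type*} (G : SimpleGraph α) (V : Finset α) (H : SimpleGraph ι)
    (B : ι → Set α) : Prop :=
  (∀ i, IsConnectedIn G V (B i)) ∧ (∀ i j, i ≠ j → Disjoint (B i) (B j)) ∧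
    ∀ i j, H.Adj i j → ∃ x ∈ B i, ∃ y ∈ B j, G.Adj x y

/-- the graph of the `d`-dimensional cross-polytope: the vertex `e_i` is `(i, true)`, `-e_i` is `(i, false)`,
all pairs but the antipodal ones are adjacent. -/
def crossGraph (d : ℕ) : SimpleGraph (Fin d × Bool) where
  Adj p q := p.1 ≠ q.1
  symm := ⟨fun _ _ h => Ne.symm h⟩
  loopless := ⟨fun _ h => h rfl⟩

/-- The bags of antipodal vertices of the cross-polytope are antipodal sets. -/
def IsAntipodal {E : Type*} [AddCommGroup E] {d : ℕ} (B : Fin d × Bool → Set E) : Prop :=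
  ∀ i s x, x ∈ B (i, s) ↔ -x ∈ B (i, !s)

/-- The graph of every centrally symmetric simplicial `d`-polytope has the graph of the `d`-dimensional
cross-polytope as a minor, with antipodal sets for antipodal vertices, and the complete graph with
`[3d/2]` vertices as a minor. -/
theorem result (d : ℕ) (V : Finset (EuclideanSpace ℝ (Fin d))) (hV : IsCSSimplicial V) :
    (∃ B, IsMinorModel (polytopeGraph V) V (crossGraph d) B ∧ IsAntipodal B) ∧
    ∃ C : Fin (3 * d / 2) → Set (EuclideanSpace ℝ (Fin d)),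
      IsMinorModel (polytopeGraph V) V ⊤ C := by
  obtain ⟨B, h1, h2, h3, h4⟩ : ∃ B : Fin d → Bool → Set (EuclideanSpace ℝ (Fin d)),
      (∀ i s, (B i s).Nonempty ∧ B i s ⊆ V ∧ ∀ x ∈ B i s, ∀ y ∈ B i s,
        ∃ p : (polytopeGraph V).Walk x y, ∀ z ∈ p.support, z ∈ B i s) ∧
      (∀ i s j t, (i, s) ≠ (j, t) → Disjoint (B i s) (B j t)) ∧
      (∀ i s x, x ∈ B i s ↔ -x ∈ B i (!s)) ∧
      ∀ i s j t, i ≠ j → ∃ x ∈ B i s, ∃ y ∈ B j t, (polytopeGraph V).Adj x y := by
    rcases Nat.eq_zero_or_pos d with h0 | hd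
    · subst h0
      exact ⟨fun i => i.elim0, fun i => i.elim0, fun i => i.elim0, fun i => i.elim0,
        fun i => i.elim0⟩
    · exact Pool.Agent.Work.MP_5f857a_co.M.minorF d hd V hV.1 hV.2.1 hV.2.2.1 hV.2.2.2
  constructor
  · exact ⟨fun p => B p.1 p.2, ⟨fun i => h1 i.1 i.2, fun i j hij => h2 _ _ _ _ hij,
      fun i j hij => h4 _ _ _ _ hij⟩, fun i s x => h3 i s x⟩
  · obtain ⟨C, c1, c2, c3, c4⟩ := Pool.Agent.Work.MP_5f857a_co.M.merge (polytopeGraph V) d B
      (fun i s => ⟨(h1 i s).1, (h1 i s).2.2⟩) h2 h4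
    refine ⟨C, fun m => ⟨(c1 m).1, fun x hx => ?_, (c1 m).2⟩, c2, fun i j hij => c3 i j hij⟩
    obtain ⟨i, hi⟩ := Set.mem_iUnion.1 (c4 m hx)
    obtain ⟨s, hs⟩ := Set.mem_iUnion.1 hi
    exact (h1 i s).2.1 hs

end Pool.Agent.Work.MP_5f857a_co.Retired.CrossPolytopeMinor
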