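import Pool.Agent.Work.MP_5f857a_co.Main

/-!
MP_5f857a_co, partial answer to Q1: centrally symmetric simplicial `d`-polytopes with fewer than
`5 d / 2` vertices.
-/

set_option autoImplicit false

namespace Pool.Agent.Work.MP_5f857a_co.Retired.FewVertices

section

variable {E : Type*} [AddCommGroup E] [Module ℝ E]

/-- the points of `V` on any supporting hyperplane `f x = c` of `conv V` are affinely independent -/
def HasSimplexFaces (V : Finset E) : Prop :=
  ∀ (f : E →ₗ[ℝ] ℝ) (c : ℝ), (∀ x ∈ V, f x ≤ c) → (∃ x ∈ V, f x < c) →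
    AffineIndependent ℝ (fun x : {x : E // x ∈ V ∧ f x = c} => (x : E))

/-- `V` is the vertex set of a centrally symmetric simplicial polytope `P = conv V` of full dimension:
`V = -V`, every point of `V` is a vertex of `P`, `V` spans the whole space affinely, and every proper face
is a simplex. -/
def IsCSSimplicial (V : Finset E) : Prop :=
  (∀ v ∈ V, -v ∈ V) ∧ (∀ v ∈ V, v ∉ convexHull ℝ ((V : Set E) \ {v})) ∧
    affineSpan ℝ (V : Set E) = ⊤ ∧ HasSimplexFaces V

/-- `u` and `v` span an edge (or are a vertex, if `u = v`) of `conv V`: some supporting hyperplane meets `V`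
exactly in `u` and `v`. -/
def IsEdge (V : Finset E) (u v : E) : Prop :=
  u ∈ V ∧ v ∈ V ∧ ∃ (f : E →ₗ[ℝ] ℝ) (c : ℝ),
    (∀ x ∈ V, f x ≤ c) ∧ ∀ x ∈ V, (f x = c ↔ (x = u ∨ x = v))

/-- the graph of the polytope `conv V` -/
def polytopeGraph (V : Finset E) : SimpleGraph E := SimpleGraph.fromRel (fun u v => IsEdge V u v)

end

/-- The walks `p i j`, `i < j`, are paths, and two of them meet only in common end points. -/
def PathsMeetOnlyAtEnds {α : Type*} {G : SimpleGraph α} {m : ℕ} (b : Fin m → α)
    (p : (i j : Fin m) → G.Walk (b i) (b j)) : Prop :=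
  (∀ i j, i < j → (p i j).IsPath) ∧
    ∀ i j k l, i < j → k < l → (i, j) ≠ (k, l) →
      ∀ x ∈ (p i j).support, x ∈ (p k l).support → x = b i ∨ x = b j

/-- The graph `G` contains a subdivision of the complete graph `K_m` with branch vertices `b i` in `V`. -/
def ContainsSubdivision {α : Type*} (G : SimpleGraph α) (V : Finset α) (m : ℕ) : Prop :=
  ∃ b : Fin m → α, Function.Injective b ∧ (∀ i, b i ∈ V) ∧
    ∃ p : (i j : Fin m) → G.Walk (b i) (b j), PathsMeetOnlyAtEnds b p

/-- For every `d`, the graph of every centrally symmetric simplicial `d`-polytope with fewer than `5 d / 2`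
vertices contains a subdivision of the complete graph on `⌊3 d / 2⌋` vertices. -/
theorem result :
    ∀ (d : ℕ) (V : Finset (EuclideanSpace ℝ (Fin d))), IsCSSimplicial V → 2 * V.card < 5 * d →
      ContainsSubdivision (polytopeGraph V) V (3 * d / 2) :=
  fun d V h h5 =>
    Pool.Agent.Work.MP_5f857a_co.few_vertices d V
      ⟨h.1, fun v hv => by rw [Finset.coe_erase]; exact h.2.1 v hv, h.2.2.1, h.2.2.2⟩ h5

end Pool.Agent.Work.MP_5f857a_co.Retired.FewVertices
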